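import Pool.Agent.helper56.CT.SpecA

namespace CT
open Finset

/-- The pairing `t` as an involution of `Fin 4`. -/
def B4_pi : Fin 3 → Fin 4 → Fin 4
  | 0 => ![1, 0, 3, 2]
  | 1 => ![2, 3, 0, 1]
  | 2 => ![3, 2, 1, 0]

theorem B4_pi_pi (t : Fin 3) (i : Fin 4) : B4_pi t (B4_pi t i) = i := by
  revert t i; decide

/-- The elements of `I` whose partner is in `I`. -/
def B4_It (I : Finset (Fin 4)) (t : Fin 3) : Finset (Fin 4) := I.filter fun i => B4_pi t i ∈ I

theorem B4_It_inv (I : Finset (Fin 4)) (t : Fin 3) (B : Finset (Fin 4))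
    (hB : ∀ i ∈ B, B4_pi t i ∈ B) : ∀ i ∈ B4_It I t \ B, B4_pi t i ∈ B4_It I t \ B := by
  intro i hi
  unfold B4_It at hi ⊢
  simp only [mem_sdiff, mem_filter] at hi ⊢
  refine ⟨⟨hi.1.2, ?_⟩, ?_⟩
  · rw [B4_pi_pi]; exact hi.1.1
  · intro h
    have := hB _ h
    rw [B4_pi_pi] at this
    exact hi.2 this

def B4_A (I : Finset (Fin 4)) (a a' : ℕ) : Finset (Finset (Fin 4)) :=
  I.powerset.filter fun A => A.card = a ∧ (I \ A).card = a'

def B4_B (I : Finset (Fin 4)) (b b' : ℕ) : Finset (Fin 3 × Finset (Fin 4)) :=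
  ((univ : Finset (Fin 3)) ×ˢ I.powerset).filter fun p =>
    p.2 ⊆ B4_It I p.1 ∧ (∀ i ∈ p.2, B4_pi p.1 i ∈ p.2) ∧ p.2.card = b ∧
      (B4_It I p.1 \ p.2).card = b'

theorem B4_m11 : ∀ I : Finset (Fin 4), 2 ≤ I.card →
    (B4_A I 1 1).val.map (fun _ => ()) = (B4_B I 0 0).val.map (fun _ => ()) := by
  decide +kernel

theorem B4_m12 : ∀ I : Finset (Fin 4), 3 ≤ I.card →
    (B4_A I 1 2).val.map (fun A => I \ A) =
      (B4_B I 0 2).val.map (fun p => B4_It I p.1 \ p.2) := by
  decide +kernel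

theorem B4_m21 : ∀ I : Finset (Fin 4), 3 ≤ I.card →
    (B4_A I 2 1).val.map (fun A => A) = (B4_B I 2 0).val.map (fun p => p.2) := by
  decide +kernel

theorem B4_m22 : ∀ I : Finset (Fin 4), 4 ≤ I.card →
    (B4_A I 2 2).val.map (fun A => (A, I \ A)) =
      (B4_B I 2 2).val.map (fun p => (p.2, B4_It I p.1 \ p.2)) := by
  decide +kernel

theorem B4_m13 : (B4_A univ 1 3).val.map (fun A => univ \ A) =
    (univ : Finset (Fin 4)).val.map (fun l => {l}ᶜ) := by
  decide +kernel

theorem B4_m31 : (B4_A univ 3 1).val.map (fun A => A) =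
    (univ : Finset (Fin 4)).val.map (fun l => {l}ᶜ) := by
  decide +kernel

theorem B4_n13 : (B4_B univ 0 4).val.map (fun p => (p.1, B4_It univ p.1 \ p.2)) =
    (univ : Finset (Fin 3)).val.map (fun t => (t, univ)) := by
  decide +kernel

theorem B4_n31 : (B4_B univ 4 0).val.map (fun p => (p.1, p.2)) =
    (univ : Finset (Fin 3)).val.map (fun t => (t, univ)) := by
  decide +kernel

theorem B4_even : ∀ (t : Fin 3) (B : Finset (Fin 4)), (∀ i ∈ B, B4_pi t i ∈ B) →
    B.card % 2 = 0 := by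
  decide +kernel

theorem B4_ms {α β γ : Type*} (s : Finset α) (t : Finset β) (ψ : α → γ) (ψ' : β → γ)
    (h : s.val.map ψ = t.val.map ψ') (g : γ → ℕ) :
    ∑ a ∈ s, g (ψ a) = ∑ b ∈ t, g (ψ' b) := by
  have h1 : ∑ a ∈ s, g (ψ a) = ((s.val.map ψ).map g).sum := by
    rw [Multiset.map_map]; rfl
  have h2 : ∑ b ∈ t, g (ψ' b) = ((t.val.map ψ').map g).sum := by
    rw [Multiset.map_map]; rfl
  rw [h1, h2, h]

open Classical in
theorem B4_core (I : Finset (Fin 4)) (K K' : Finset (Fin 4) → Prop)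
    (M M' : Fin 3 → Finset (Fin 4) → Prop) (f f' s : ℕ)
    (hK : ∀ A, A.card = 1 → (K A ↔ K ∅)) (hK' : ∀ A, A.card = 1 → (K' A ↔ K' ∅))
    (hM0 : ∀ t, M t ∅ ↔ K ∅) (hM0' : ∀ t, M' t ∅ ↔ K' ∅)
    (hM2 : ∀ t A, A.card = 2 → (∀ i ∈ A, B4_pi t i ∈ A) → (M t A ↔ K A))
    (hM2' : ∀ t A, A.card = 2 → (∀ i ∈ A, B4_pi t i ∈ A) → (M' t A ↔ K' A))
    (h4 : I = univ → f + 8 = 2 * s →
      ((univ : Finset (Fin 4)).filter fun l => K {l}ᶜ).card =
      ((univ : Finset (Fin 3)).filter fun t => M t univ).card)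
    (h4' : I = univ → f' + 8 = 2 * s →
      ((univ : Finset (Fin 4)).filter fun l => K' {l}ᶜ).card =
      ((univ : Finset (Fin 3)).filter fun t => M' t univ).card)
    (hc : 4 * s ≤ f + f' + 2 * I.card + 4) :
    (I.powerset.filter fun A => (A ≠ ∅ ∧ f + 2 * A.card + 2 = 2 * s ∧ K A) ∧
      (I \ A ≠ ∅ ∧ f' + 2 * (I \ A).card + 2 = 2 * s ∧ K' (I \ A))).card =
    ∑ t : Fin 3, ((B4_It I t).powerset.filter fun B => (∀ i ∈ B, B4_pi t i ∈ B) ∧
      (f + B.card + 4 = 2 * s ∧ M t B) ∧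
      (f' + (B4_It I t \ B).card + 4 = 2 * s ∧ M' t (B4_It I t \ B))).card := by
  by_cases hex : ∃ a a', 1 ≤ a ∧ 1 ≤ a' ∧ f + 2 * a + 2 = 2 * s ∧ f' + 2 * a' + 2 = 2 * s
  · obtain ⟨a, a', ha, ha', hf, hf'⟩ := hex
    have hL : (I.powerset.filter fun A => (A ≠ ∅ ∧ f + 2 * A.card + 2 = 2 * s ∧ K A) ∧
      (I \ A ≠ ∅ ∧ f' + 2 * (I \ A).card + 2 = 2 * s ∧ K' (I \ A))).card =
        ∑ A ∈ B4_A I a a', if K A ∧ K' (I \ A) then 1 else 0 := by
      rw [← card_filter]
      congr 1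
      ext A
      unfold B4_A
      simp only [mem_filter, mem_powerset]
      constructor
      · rintro ⟨h1, ⟨h2, h3, h4⟩, h5, h6, h7⟩
        exact ⟨⟨h1, by omega, by omega⟩, h4, h7⟩
      · rintro ⟨⟨h1, h2, h3⟩, h4, h5⟩
        refine ⟨h1, ⟨?_, by omega, h4⟩, ?_, by omega, h5⟩
        · rintro rfl; simp at h2; omega
        · intro h; rw [h] at h3; simp at h3; omega
    have hR : ∑ t : Fin 3, ((B4_It I t).powerset.filter fun B => (∀ i ∈ B, B4_pi t i ∈ B) ∧
      (f + B.card + 4 = 2 * s ∧ M t B) ∧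
      (f' + (B4_It I t \ B).card + 4 = 2 * s ∧ M' t (B4_It I t \ B))).card =
        ∑ p ∈ B4_B I (2 * a - 2) (2 * a' - 2),
          if M p.1 p.2 ∧ M' p.1 (B4_It I p.1 \ p.2) then 1 else 0 := by
      rw [← card_filter, ← card_sigma]
      refine card_nbij' (fun p => (p.1, p.2)) (fun p => ⟨p.1, p.2⟩) ?_ ?_ ?_ ?_
      · rintro ⟨t, B⟩ h
        unfold B4_B
        simp only [coe_sigma, Set.mem_sigma_iff, mem_coe, mem_univ, mem_filter, mem_powerset,
          true_and, mem_product] at h ⊢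
        obtain ⟨h1, h2, ⟨h3, h4⟩, h5, h6⟩ := h
        exact ⟨⟨h1.trans (filter_subset _ _), h1, h2, by omega, by omega⟩, h4, h6⟩
      · rintro ⟨t, B⟩ h
        unfold B4_B at h
        simp only [coe_sigma, Set.mem_sigma_iff, mem_coe, mem_univ, mem_filter, mem_powerset,
          true_and, mem_product] at h ⊢
        obtain ⟨⟨h0, h1, h2, h3, h4⟩, h5, h6⟩ := h
        exact ⟨h1, h2, ⟨by omega, h5⟩, by omega, h6⟩
      · rintro ⟨t, B⟩ _; rfl
      · rintro ⟨t, B⟩ _; rfl
    rw [hL, hR]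
    have hI4 : I.card ≤ 4 := by
      have := card_le_univ I
      simpa using this
    have haa : a + a' ≤ I.card := by omega
    have hcase : (a = 1 ∧ a' = 1) ∨ (a = 1 ∧ a' = 2) ∨ (a = 2 ∧ a' = 1) ∨ (a = 1 ∧ a' = 3) ∨
      (a = 2 ∧ a' = 2) ∨ (a = 3 ∧ a' = 1) := by omega
    clear hL hR
    rcases hcase with ⟨rfl, rfl⟩ | ⟨rfl, rfl⟩ | ⟨rfl, rfl⟩ | ⟨rfl, rfl⟩ | ⟨rfl, rfl⟩ | ⟨rfl, rfl⟩
    · -- (1,1)
      have := B4_ms _ _ _ _ (B4_m11 I (by omega)) (fun _ => if K ∅ ∧ K' ∅ then 1 else 0)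
      refine Eq.trans ?_ (this.trans ?_)
      · refine sum_congr rfl fun A hA => ?_
        simp only [B4_A, mem_filter] at hA
        rw [hK A hA.2.1, hK' _ hA.2.2]
      · refine sum_congr rfl fun p hp => ?_
        simp only [B4_B, mem_filter] at hp
        obtain ⟨_, _, _, h1, h2⟩ := hp
        have h1 : p.2 = ∅ := card_eq_zero.1 h1
        have h2 : B4_It I p.1 \ p.2 = ∅ := card_eq_zero.1 h2
        rw [h2, h1, hM0, hM0']
    · -- (1,2)
      have := B4_ms _ _ _ _ (B4_m12 I (by omega)) (fun A' => if K ∅ ∧ K' A' then 1 else 0)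
      refine Eq.trans ?_ (this.trans ?_)
      · refine sum_congr rfl fun A hA => ?_
        simp only [B4_A, mem_filter] at hA
        rw [hK A hA.2.1]
      · refine sum_congr rfl fun p hp => ?_
        simp only [B4_B, mem_filter] at hp
        obtain ⟨_, _, hinv, h1, h2⟩ := hp
        have h1 : p.2 = ∅ := card_eq_zero.1 h1
        rw [hM2' p.1 (B4_It I p.1 \ p.2) h2 (B4_It_inv I p.1 p.2 hinv), h1, hM0]
    · -- (2,1)
      have := B4_ms _ _ _ _ (B4_m21 I (by omega)) (fun A => if K A ∧ K' ∅ then 1 else 0)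
      refine Eq.trans ?_ (this.trans ?_)
      · refine sum_congr rfl fun A hA => ?_
        simp only [B4_A, mem_filter] at hA
        rw [hK' _ hA.2.2]
      · refine sum_congr rfl fun p hp => ?_
        simp only [B4_B, mem_filter] at hp
        obtain ⟨_, _, hinv, h1, h2⟩ := hp
        have h2 : B4_It I p.1 \ p.2 = ∅ := card_eq_zero.1 h2
        rw [hM2 p.1 p.2 h1 hinv, h2, hM0']
    · -- (1,3)
      have hIu : I = univ := by
        rw [← card_eq_iff_eq_univ]; simp; omega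
      subst hIu
      have h1 := B4_ms _ _ _ _ B4_m13 (fun A' => if K ∅ ∧ K' A' then 1 else 0)
      have h2 := B4_ms _ _ _ _ B4_n13 (fun p => if K ∅ ∧ M' p.1 p.2 then 1 else 0)
      refine Eq.trans ?_ (h1.trans (Eq.trans ?_ (h2.symm.trans ?_)))
      · refine sum_congr rfl fun A hA => ?_
        simp only [B4_A, mem_filter] at hA
        rw [hK A hA.2.1]
      · by_cases hk : K ∅
        · simp only [hk, true_and]
          rw [← card_filter, ← card_filter]
          exact h4' rfl (by omega)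
        · simp [hk]
      · refine sum_congr rfl fun p hp => ?_
        simp only [B4_B, mem_filter] at hp
        obtain ⟨_, _, hinv, h1, h2⟩ := hp
        have h1 : p.2 = ∅ := card_eq_zero.1 h1
        rw [h1, hM0]
    · -- (2,2)
      have := B4_ms _ _ _ _ (B4_m22 I (by omega)) (fun A => if K A.1 ∧ K' A.2 then 1 else 0)
      refine Eq.trans ?_ (this.trans ?_)
      · rfl
      · refine sum_congr rfl fun p hp => ?_
        simp only [B4_B, mem_filter] at hp
        obtain ⟨_, _, hinv, h1, h2⟩ := hp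
        rw [hM2 p.1 p.2 h1 hinv, hM2' p.1 (B4_It I p.1 \ p.2) h2 (B4_It_inv I p.1 p.2 hinv)]
    · -- (3,1)
      have hIu : I = univ := by
        rw [← card_eq_iff_eq_univ]; simp; omega
      subst hIu
      have h1 := B4_ms _ _ _ _ B4_m31 (fun A => if K' ∅ ∧ K A then 1 else 0)
      have h2 := B4_ms _ _ _ _ B4_n31 (fun p => if K' ∅ ∧ M p.1 p.2 then 1 else 0)
      refine Eq.trans ?_ (h1.trans (Eq.trans ?_ (h2.symm.trans ?_)))
      · refine sum_congr rfl fun A hA => ?_
        simp only [B4_A, mem_filter] at hA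
        rw [hK' _ hA.2.2]
        exact if_congr and_comm rfl rfl
      · by_cases hk : K' ∅
        · simp only [hk, true_and]
          rw [← card_filter, ← card_filter]
          exact h4 rfl (by omega)
        · simp [hk]
      · refine sum_congr rfl fun p hp => ?_
        simp only [B4_B, mem_filter] at hp
        obtain ⟨_, _, hinv, h1, h2⟩ := hp
        have h2 : B4_It univ p.1 \ p.2 = ∅ := card_eq_zero.1 h2
        rw [h2, hM0']
        exact if_congr and_comm rfl rfl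
  · have hL : (I.powerset.filter fun A => (A ≠ ∅ ∧ f + 2 * A.card + 2 = 2 * s ∧ K A) ∧
      (I \ A ≠ ∅ ∧ f' + 2 * (I \ A).card + 2 = 2 * s ∧ K' (I \ A))) = ∅ := by
      rw [filter_eq_empty_iff]
      rintro A _ ⟨⟨h1, h2, _⟩, h3, h4, _⟩
      exact hex ⟨A.card, (I \ A).card, card_pos.2 (nonempty_iff_ne_empty.2 h1),
        card_pos.2 (nonempty_iff_ne_empty.2 h3), h2, h4⟩
    rw [hL, card_empty]
    symm
    refine sum_eq_zero fun t _ => ?_
    rw [card_eq_zero, filter_eq_empty_iff]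
    rintro B _ ⟨hinv, ⟨h1, _⟩, h2, _⟩
    have e1 := B4_even t B hinv
    have e2 := B4_even t _ (B4_It_inv I t B hinv)
    exact hex ⟨B.card / 2 + 1, (B4_It I t \ B).card / 2 + 1, by omega, by omega, by omega,
      by omega⟩


/-! ### The graph part -/

section graph
variable {V : Type} [DecidableEq V]

/-- The smoothing at `u` in terms of the partners. -/
theorem B4_sm_y (e : V × Fin 4 → V × Fin 4) (he : ∀ d, e (e d) = d) (u : V)
    (hl : ∀ i j, e (u, i) ≠ (u, j)) (t : Fin 3) (i : Fin 4) :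
    sm e u t (e (u, i)) = e (u, B4_pi t i) := by
  have hl' : ∀ i j, (u, j) ≠ e (u, i) := fun i j h => hl i j h.symm
  have hn : ∀ i j : Fin 4, (u, i) = (u, j) ↔ i = j := by simp
  have hy : ∀ i j, e (u, i) = e (u, j) ↔ i = j := by
    intro i j; rw [inj_of he]; simp
  fin_cases t <;> fin_cases i <;>
    simp [sm, pr, join, B4_pi, hl, he]

theorem B4_sm_out (e : V × Fin 4 → V × Fin 4) (u : V) (t : Fin 3) (d : V × Fin 4)
    (h1 : d.1 ≠ u) (h2 : (e d).1 ≠ u) : sm e u t d = e d := by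
  have a : ∀ i, d ≠ (u, i) := fun i h => h1 (by rw [h])
  have b : ∀ i, e d ≠ (u, i) := fun i h => h2 (by rw [h])
  unfold sm
  simp [join, a, b]


/-- The condition for a star. -/
def B4_K (S' : Finset V) (e : V × Fin 4 → V × Fin 4) (F : Finset (V × Fin 4)) (y : Fin 4 → V)
    (A : Finset (Fin 4)) : Prop :=
  ∀ φ : V → Bool, (∀ d ∈ F, φ d.1 = φ (e d).1) → (∀ i ∈ A, ∀ j ∈ A, φ (y i) = φ (y j)) →
    ∀ a ∈ S', ∀ b ∈ S', φ a = φ b

/-- The condition for new strands. -/
def B4_M (S' : Finset V) (e : V × Fin 4 → V × Fin 4) (F : Finset (V × Fin 4)) (y : Fin 4 → V)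
    (t : Fin 3) (B : Finset (Fin 4)) : Prop :=
  ∀ φ : V → Bool, (∀ d ∈ F, φ d.1 = φ (e d).1) → (∀ i ∈ B, φ (y i) = φ (y (B4_pi t i))) →
    ∀ a ∈ S', ∀ b ∈ S', φ a = φ b

omit [DecidableEq V] in
theorem B4_K1 (S' : Finset V) (e : V × Fin 4 → V × Fin 4) (F : Finset (V × Fin 4))
    (y : Fin 4 → V) (A : Finset (Fin 4)) (hA : A.card = 1) :
    B4_K S' e F y A ↔ B4_K S' e F y ∅ := by
  obtain ⟨i, rfl⟩ := card_eq_one.1 hA
  simp [B4_K]

omit [DecidableEq V] in
theorem B4_M0 (S' : Finset V) (e : V × Fin 4 → V × Fin 4) (F : Finset (V × Fin 4))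
    (y : Fin 4 → V) (t : Fin 3) :
    B4_M S' e F y t ∅ ↔ B4_K S' e F y ∅ := by
  simp [B4_K, B4_M]

theorem B4_pi_pair : ∀ (t : Fin 3) (A : Finset (Fin 4)), A.card = 2 →
    (∀ i ∈ A, B4_pi t i ∈ A) → ∀ i ∈ A, ∀ j ∈ A, j = i ∨ j = B4_pi t i := by
  decide +kernel

omit [DecidableEq V] in
theorem B4_M2 (S' : Finset V) (e : V × Fin 4 → V × Fin 4) (F : Finset (V × Fin 4))
    (y : Fin 4 → V) (t : Fin 3) (A : Finset (Fin 4)) (hA : A.card = 2)
    (hi : ∀ i ∈ A, B4_pi t i ∈ A) :
    B4_M S' e F y t A ↔ B4_K S' e F y A := by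
  unfold B4_K B4_M
  refine forall_congr' fun φ => imp_congr_right fun _ => imp_congr ?_ Iff.rfl
  constructor
  · intro h i hi' j hj'
    rcases B4_pi_pair t A hA hi i hi' j hj' with rfl | rfl
    · rfl
    · exact h i hi'
  · intro h i hi'
    exact h i hi' _ (hi i hi')

/-- The star-triangle-like equality of the numbers, from B0 and B3. -/
theorem B4_star (hB0 : B0_stmt) (hB3 : B3_stmt) [Fintype V] (S' : Finset V)
    (e : V × Fin 4 → V × Fin 4) (F : Finset (V × Fin 4)) (y : Fin 4 → V)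
    (hy : ∀ i, y i ∈ S') (he : ∀ d, e (e d) = d)
    (hF : ∀ d ∈ F, e d ∈ F ∧ e d ≠ d ∧ d.1 ∈ S') (hcard : F.card + 6 ≤ 2 * S'.card)
    [DecidablePred fun l => B4_K S' e F y {l}ᶜ] [DecidablePred fun t => B4_M S' e F y t univ] :
    ((univ : Finset (Fin 4)).filter fun l => B4_K S' e F y {l}ᶜ).card =
      ((univ : Finset (Fin 3)).filter fun t => B4_M S' e F y t univ).card := by
  classical
  let r : Setoid {a // a ∈ S'} :=
    { r := fun a b => ∀ φ : V → Bool, (∀ d ∈ F, φ d.1 = φ (e d).1) → φ a.1 = φ b.1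
      iseqv := ⟨fun _ _ _ => rfl, fun h φ hφ => (h φ hφ).symm,
        fun h1 h2 φ hφ => (h1 φ hφ).trans (h2 φ hφ)⟩ }
  let q : Fin 4 → Quotient r := fun k => Quotient.mk r ⟨y k, hy k⟩
  let φf : (Quotient r → Bool) → V → Bool := fun f a =>
    if h : a ∈ S' then f (Quotient.mk r ⟨a, h⟩) else false
  have hφf : ∀ (f : Quotient r → Bool) (a : V) (h : a ∈ S'),
      φf f a = f (Quotient.mk r ⟨a, h⟩) := by
    intro f a h
    simp [φf, h]
  have hconst : ∀ f : Quotient r → Bool, ∀ d ∈ F, φf f d.1 = φf f (e d).1 := by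
    intro f d hd
    have h1 := (hF d hd).2.2
    have h2 := (hF _ (hF d hd).1).2.2
    rw [hφf f _ h1, hφf f _ h2]
    congr 1
    exact Quotient.sound (fun φ hφ => hφ d hd)
  have key : ∀ C : (Fin 4 → Bool) → Prop,
      (∀ φ : V → Bool, (∀ d ∈ F, φ d.1 = φ (e d).1) → C (fun k => φ (y k)) →
        ∀ a ∈ S', ∀ b ∈ S', φ a = φ b) ↔
      (∀ f : Quotient r → Bool, C (fun k => f (q k)) → ∀ r s, f r = f s) := by
    intro C
    constructor
    · intro h f hC a b
      induction a using Quotient.inductionOn with | _ a => ?_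
      induction b using Quotient.inductionOn with | _ b => ?_
      have := h (φf f) (hconst f) ?_ a.1 a.2 b.1 b.2
      · rw [hφf f a.1 a.2, hφf f b.1 b.2] at this
        exact this
      · have e1 : (fun k => φf f (y k)) = fun k => f (q k) := by
          funext k
          rw [hφf f (y k) (hy k)]
        rw [e1]; exact hC
    · intro h φ hφ hC a ha b hb
      exact h (Quotient.lift (fun a => φ a.1) (fun a b hab => hab φ hφ)) hC
        (Quotient.mk r ⟨a, ha⟩) (Quotient.mk r ⟨b, hb⟩)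
  have hQ : 3 ≤ Fintype.card (Quotient r) := by
    have h0 := hB0 V S' e F 3 he hF (by omega)
    have h1 : ((univ : Finset (V → Bool)).filter fun φ =>
      (∀ v, v ∉ S' → φ v = false) ∧ ∀ d ∈ F, φ d.1 = φ (e d).1) ⊆
        (univ : Finset (Quotient r → Bool)).image φf := by
      intro φ hφ
      rw [mem_filter] at hφ
      rw [mem_image]
      refine ⟨Quotient.lift (fun a => φ a.1) (fun a b hab => hab φ hφ.2.2), mem_univ _, ?_⟩
      funext a
      by_cases ha : a ∈ S'
      · rw [hφf _ a ha]; rfl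
      · simp only [φf, ha, dite_false]
        exact (hφ.2.1 a ha).symm
    have h2 := h0.trans ((card_le_card h1).trans card_image_le)
    rw [card_univ, Fintype.card_fun, Fintype.card_bool] at h2
    exact (Nat.pow_le_pow_iff_right (by norm_num)).1 h2
  have h3 := hB3 (Quotient r) q hQ
  refine Eq.trans ?_ (h3.trans ?_)
  · congr 1
    refine filter_congr fun l _ => ?_
    have := key (fun g => ∀ k k', k ≠ l → k' ≠ l → g k = g k')
    rw [← this]
    unfold B4_K
    simp only [mem_compl, mem_singleton]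
    refine forall_congr' fun φ => imp_congr_right fun _ => imp_congr ?_ Iff.rfl
    exact ⟨fun h k k' h1 h2 => h k h1 k' h2, fun h k h1 k' h2 => h k k' h1 h2⟩
  · congr 1
    refine filter_congr fun t _ => ?_
    have := key (fun g => g (pr t).1 = g (pr t).2.1 ∧ g (pr t).2.2.1 = g (pr t).2.2.2)
    simp only [and_imp] at this
    rw [← this]
    unfold B4_M
    refine forall_congr' fun φ => imp_congr_right fun _ => ?_
    rw [← and_imp]
    refine imp_congr ?_ Iff.rfl
    fin_cases t <;> simp [pr, B4_pi, Fin.forall_fin_succ, eq_comm] <;> tauto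


/-- All darts of the strands from `u` with index in `A`. -/
def B4_X (e : V × Fin 4 → V × Fin 4) (u : V) (A : Finset (Fin 4)) : Finset (V × Fin 4) :=
  A.image (fun i => (u, i)) ∪ A.image (fun i => e (u, i))

/-- The partners of the darts at `u` with index in `B`. -/
def B4_Y (e : V × Fin 4 → V × Fin 4) (u : V) (B : Finset (Fin 4)) : Finset (V × Fin 4) :=
  B.image (fun i => e (u, i))

theorem B4_mem_X (e : V × Fin 4 → V × Fin 4) (u : V) (A : Finset (Fin 4)) (d : V × Fin 4) :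
    d ∈ B4_X e u A ↔ ∃ i ∈ A, d = (u, i) ∨ d = e (u, i) := by
  unfold B4_X
  simp only [mem_union, mem_image]
  constructor
  · rintro (⟨i, hi, rfl⟩ | ⟨i, hi, rfl⟩)
    · exact ⟨i, hi, Or.inl rfl⟩
    · exact ⟨i, hi, Or.inr rfl⟩
  · rintro ⟨i, hi, rfl | rfl⟩
    · exact Or.inl ⟨i, hi, rfl⟩
    · exact Or.inr ⟨i, hi, rfl⟩

theorem B4_mem_Y (e : V × Fin 4 → V × Fin 4) (u : V) (B : Finset (Fin 4)) (d : V × Fin 4) :
    d ∈ B4_Y e u B ↔ ∃ i ∈ B, d = e (u, i) := by
  unfold B4_Y
  simp only [mem_image]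
  exact ⟨fun ⟨i, hi, h⟩ => ⟨i, hi, h.symm⟩, fun ⟨i, hi, h⟩ => ⟨i, hi, h.symm⟩⟩

theorem B4_x_mem_X (e : V × Fin 4 → V × Fin 4) (u : V)
    (hl : ∀ i j, e (u, i) ≠ (u, j)) (A : Finset (Fin 4)) (i : Fin 4) :
    (u, i) ∈ B4_X e u A ↔ i ∈ A := by
  rw [B4_mem_X]
  constructor
  · rintro ⟨j, hj, h | h⟩
    · rw [Prod.mk.injEq] at h
      rw [h.2]; exact hj
    · exact absurd h.symm (hl j i)
  · intro h
    exact ⟨i, h, Or.inl rfl⟩

theorem B4_y_mem_Y (e : V × Fin 4 → V × Fin 4) (he : ∀ d, e (e d) = d) (u : V)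
    (B : Finset (Fin 4)) (i : Fin 4) :
    e (u, i) ∈ B4_Y e u B ↔ i ∈ B := by
  rw [B4_mem_Y]
  constructor
  · rintro ⟨j, hj, h⟩
    rw [inj_of he, Prod.mk.injEq] at h
    rw [h.2]; exact hj
  · intro h
    exact ⟨i, h, rfl⟩

theorem B4_y_mem_X (e : V × Fin 4 → V × Fin 4) (he : ∀ d, e (e d) = d) (u : V)
    (hl : ∀ i j, e (u, i) ≠ (u, j)) (A : Finset (Fin 4)) (i : Fin 4) :
    e (u, i) ∈ B4_X e u A ↔ i ∈ A := by
  rw [B4_mem_X]
  constructor
  · rintro ⟨j, hj, h | h⟩
    · exact absurd h (hl i j)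
    · rw [inj_of he, Prod.mk.injEq] at h
      rw [h.2]; exact hj
  · intro h
    exact ⟨i, h, Or.inr rfl⟩

theorem B4_card_Y (e : V × Fin 4 → V × Fin 4) (he : ∀ d, e (e d) = d) (u : V)
    (B : Finset (Fin 4)) : (B4_Y e u B).card = B.card := by
  unfold B4_Y
  rw [card_image_of_injective]
  intro i j h
  rw [inj_of he, Prod.mk.injEq] at h
  exact h.2

theorem B4_card_X (e : V × Fin 4 → V × Fin 4) (he : ∀ d, e (e d) = d) (u : V)
    (hl : ∀ i j, e (u, i) ≠ (u, j)) (A : Finset (Fin 4)) :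
    (B4_X e u A).card = 2 * A.card := by
  unfold B4_X
  rw [card_union_of_disjoint, card_image_of_injective, card_image_of_injective]
  · ring
  · intro i j h
    rw [inj_of he, Prod.mk.injEq] at h
    exact h.2
  · intro i j h
    rw [Prod.mk.injEq] at h
    exact h.2
  · rw [disjoint_left]
    intro d h1 h2
    rw [mem_image] at h1 h2
    obtain ⟨i, _, rfl⟩ := h1
    obtain ⟨j, _, h⟩ := h2
    exact hl j i h

/-- The strands from `u` going to `S`. -/
def B4_I (S' : Finset V) (e : V × Fin 4 → V × Fin 4) (u : V) : Finset (Fin 4) :=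
  univ.filter fun i => (e (u, i)).1 ∈ S'

theorem B4_mem_DU (S : Finset V) (e : V × Fin 4 → V × Fin 4) (d : V × Fin 4) :
    d ∈ DU S e ↔ d.1 ∈ S ∧ (e d).1 ∈ S := by
  simp [DU, dts]

theorem B4_DU (S : Finset V) (e : V × Fin 4 → V × Fin 4) (he : ∀ d, e (e d) = d) (u : V)
    (hu : u ∈ S) (hl : ∀ i j, e (u, i) ≠ (u, j)) :
    DU S e = DU (S.erase u) e ∪ B4_X e u (B4_I (S.erase u) e u) := by
  have hl' : ∀ i, (e (u, i)).1 ≠ u := by
    intro i h
    exact hl i (e (u, i)).2 (Prod.ext h rfl)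
  ext d
  rw [mem_union, B4_mem_DU, B4_mem_DU, B4_mem_X]
  constructor
  · rintro ⟨h1, h2⟩
    by_cases h3 : d.1 = u
    · right
      have hd : d = (u, d.2) := by rw [← h3]
      refine ⟨d.2, ?_, Or.inl hd⟩
      unfold B4_I
      rw [mem_filter, mem_erase, ← hd]
      refine ⟨mem_univ _, ?_, h2⟩
      rw [hd]; exact hl' _
    · by_cases h4 : (e d).1 = u
      · right
        have hd : e d = (u, (e d).2) := by rw [← h4]
        have hd' : d = e (u, (e d).2) := by rw [← hd, he]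
        refine ⟨(e d).2, ?_, Or.inr hd'⟩
        unfold B4_I
        rw [mem_filter, mem_erase, ← hd']
        exact ⟨mem_univ _, h3, h1⟩
      · left
        rw [mem_erase, mem_erase]
        exact ⟨⟨h3, h1⟩, h4, h2⟩
  · rintro (⟨h1, h2⟩ | ⟨i, hi, h⟩)
    · exact ⟨mem_of_mem_erase h1, mem_of_mem_erase h2⟩
    · unfold B4_I at hi
      rw [mem_filter] at hi
      rcases h with rfl | rfl
      · exact ⟨hu, mem_of_mem_erase hi.2⟩
      · rw [he]
        exact ⟨mem_of_mem_erase hi.2, hu⟩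

theorem B4_DUt (S : Finset V) (e : V × Fin 4 → V × Fin 4) (he : ∀ d, e (e d) = d) (u : V)
    (hl : ∀ i j, e (u, i) ≠ (u, j)) (t : Fin 3) :
    DU (S.erase u) (sm e u t) =
      DU (S.erase u) e ∪ B4_Y e u (B4_It (B4_I (S.erase u) e u) t) := by
  ext d
  rw [mem_union, B4_mem_DU, B4_mem_DU, B4_mem_Y]
  constructor
  · rintro ⟨h1, h2⟩
    have h1' : d.1 ≠ u := ne_of_mem_erase h1
    by_cases h4 : (e d).1 = u
    · right
      have hd : e d = (u, (e d).2) := by rw [← h4]
      have hd' : d = e (u, (e d).2) := by rw [← hd, he]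
      refine ⟨(e d).2, ?_, hd'⟩
      rw [hd', B4_sm_y e he u hl] at h2
      unfold B4_It B4_I
      rw [mem_filter, mem_filter, mem_filter, ← hd']
      exact ⟨⟨mem_univ _, h1⟩, mem_univ _, h2⟩
    · left
      rw [B4_sm_out e u t d h1' h4] at h2
      exact ⟨h1, h2⟩
  · rintro (⟨h1, h2⟩ | ⟨i, hi, rfl⟩)
    · refine ⟨h1, ?_⟩
      rw [B4_sm_out e u t d (ne_of_mem_erase h1) (ne_of_mem_erase h2)]
      exact h2
    · unfold B4_It B4_I at hi
      rw [mem_filter, mem_filter, mem_filter] at hi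
      rw [B4_sm_y e he u hl]
      exact ⟨hi.1.2, hi.2.2⟩

theorem B4_disj_X (S : Finset V) (e : V × Fin 4 → V × Fin 4) (he : ∀ d, e (e d) = d) (u : V)
    (A : Finset (Fin 4)) : Disjoint (DU (S.erase u) e) (B4_X e u A) := by
  rw [disjoint_left]
  intro d h1 h2
  rw [B4_mem_DU] at h1
  rw [B4_mem_X] at h2
  obtain ⟨i, _, rfl | rfl⟩ := h2
  · exact ne_of_mem_erase h1.1 rfl
  · rw [he] at h1
    exact ne_of_mem_erase h1.2 rfl

theorem B4_disj_Y (S : Finset V) (e : V × Fin 4 → V × Fin 4) (he : ∀ d, e (e d) = d) (u : V)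
    (A : Finset (Fin 4)) : Disjoint (DU (S.erase u) e) (B4_Y e u A) := by
  rw [disjoint_left]
  intro d h1 h2
  rw [B4_mem_DU] at h1
  rw [B4_mem_Y] at h2
  obtain ⟨i, _, rfl⟩ := h2
  rw [he] at h1
  exact ne_of_mem_erase h1.2 rfl

theorem B4_Tr (S : Finset V) (e : V × Fin 4 → V × Fin 4) (he : ∀ d, e (e d) = d) (u : V)
    (hu : u ∈ S) (hS : 2 ≤ S.card) (hl : ∀ i j, e (u, i) ≠ (u, j)) (F : Finset (V × Fin 4))
    (hF : F ⊆ DU (S.erase u) e) (A : Finset (Fin 4)) (hA : A ⊆ B4_I (S.erase u) e u) :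
    Tr S e (F ∪ B4_X e u A) ↔ (A ≠ ∅ ∧ F.card + 2 * A.card + 2 = 2 * S.card ∧
      B4_K (S.erase u) e F (fun i => (e (u, i)).1) A) := by
  have hcard : (F ∪ B4_X e u A).card = F.card + 2 * A.card := by
    rw [card_union_of_disjoint, B4_card_X e he u hl]
    exact (B4_disj_X S e he u A).mono_left hF
  have hFu : ∀ d ∈ F, d.1 ≠ u ∧ (e d).1 ≠ u := by
    intro d hd
    have := hF hd
    rw [B4_mem_DU] at this
    exact ⟨ne_of_mem_erase this.1, ne_of_mem_erase this.2⟩
  have hl' : ∀ i, (e (u, i)).1 ≠ u := by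
    intro i h
    exact hl i (e (u, i)).2 (Prod.ext h rfl)
  unfold Tr
  rw [hcard]
  constructor
  · rintro ⟨h1, h2⟩
    have hne : A ≠ ∅ := by
      rintro rfl
      have h3 : ∃ w ∈ S, w ≠ u := by
        have : 0 < (S.erase u).card := by rw [card_erase_of_mem hu]; omega
        obtain ⟨w, hw⟩ := card_pos.1 this
        exact ⟨w, mem_of_mem_erase hw, ne_of_mem_erase hw⟩
      obtain ⟨w, hw, hwu⟩ := h3
      have := h2 (fun a => decide (a = u)) ?_ u hu w hw
      · simp [hwu] at this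
      · intro d hd
        rw [mem_union] at hd
        rcases hd with hd | hd
        · simp [(hFu d hd).1, (hFu d hd).2]
        · rw [B4_mem_X] at hd
          obtain ⟨i, hi, _⟩ := hd
          simp at hi
    refine ⟨hne, h1, ?_⟩
    obtain ⟨i0, hi0⟩ := nonempty_iff_ne_empty.2 hne
    intro φ hφ hφA a ha b hb
    have := h2 (Function.update φ u (φ (e (u, i0)).1)) ?_ a (mem_of_mem_erase ha) b
      (mem_of_mem_erase hb)
    · rw [Function.update_of_ne (ne_of_mem_erase ha),
        Function.update_of_ne (ne_of_mem_erase hb)] at this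
      exact this
    · intro d hd
      rw [mem_union] at hd
      rcases hd with hd | hd
      · rw [Function.update_of_ne (hFu d hd).1, Function.update_of_ne (hFu d hd).2]
        exact hφ d hd
      · rw [B4_mem_X] at hd
        obtain ⟨i, hi, rfl | rfl⟩ := hd
        · rw [Function.update_self, Function.update_of_ne (hl' i)]
          exact hφA i0 hi0 i hi
        · rw [he, Function.update_self, Function.update_of_ne (hl' i)]
          exact hφA i hi i0 hi0
  · rintro ⟨hne, h1, h2⟩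
    refine ⟨h1, ?_⟩
    obtain ⟨i0, hi0⟩ := nonempty_iff_ne_empty.2 hne
    intro φ hφ
    have hx : ∀ i ∈ A, φ u = φ (e (u, i)).1 := by
      intro i hi
      exact hφ (u, i) (mem_union_right _ ((B4_x_mem_X e u hl A i).2 hi))
    have hK := h2 φ (fun d hd => hφ d (mem_union_left _ hd))
      (fun i hi j hj => (hx i hi).symm.trans (hx j hj))
    have hy0 : (e (u, i0)).1 ∈ S.erase u := by
      have := hA hi0
      unfold B4_I at this
      rw [mem_filter] at this
      exact this.2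
    have hall : ∀ a ∈ S, φ a = φ (e (u, i0)).1 := by
      intro a ha
      by_cases hau : a = u
      · rw [hau]; exact hx i0 hi0
      · exact hK a (mem_erase.2 ⟨hau, ha⟩) _ hy0
    intro a ha b hb
    rw [hall a ha, hall b hb]

theorem B4_Trt (S : Finset V) (e : V × Fin 4 → V × Fin 4) (he : ∀ d, e (e d) = d) (u : V)
    (hu : u ∈ S) (hl : ∀ i j, e (u, i) ≠ (u, j)) (t : Fin 3)
    (F : Finset (V × Fin 4)) (hF : F ⊆ DU (S.erase u) e) (B : Finset (Fin 4)) :
    Tr (S.erase u) (sm e u t) (F ∪ B4_Y e u B) ↔ (F.card + B.card + 4 = 2 * S.card ∧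
      B4_M (S.erase u) e F (fun i => (e (u, i)).1) t B) := by
  have hcard : (F ∪ B4_Y e u B).card = F.card + B.card := by
    rw [card_union_of_disjoint, B4_card_Y e he u]
    exact (B4_disj_Y S e he u B).mono_left hF
  have hFu : ∀ d ∈ F, d.1 ≠ u ∧ (e d).1 ≠ u := by
    intro d hd
    have := hF hd
    rw [B4_mem_DU] at this
    exact ⟨ne_of_mem_erase this.1, ne_of_mem_erase this.2⟩
  have hSpos : 0 < S.card := card_pos.2 ⟨u, hu⟩
  unfold Tr
  rw [hcard, card_erase_of_mem hu]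
  refine and_congr (by omega) ?_
  unfold Conn B4_M
  refine forall_congr' fun φ => ?_
  rw [← and_imp]
  refine imp_congr ?_ Iff.rfl
  constructor
  · intro h
    refine ⟨?_, ?_⟩
    · intro d hd
      have := h d (mem_union_left _ hd)
      rwa [B4_sm_out e u t d (hFu d hd).1 (hFu d hd).2] at this
    · intro i hi
      have := h (e (u, i)) (mem_union_right _ ((B4_y_mem_Y e he u B i).2 hi))
      rwa [B4_sm_y e he u hl] at this
  · rintro ⟨h1, h2⟩ d hd
    rw [mem_union] at hd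
    rcases hd with hd | hd
    · rw [B4_sm_out e u t d (hFu d hd).1 (hFu d hd).2]
      exact h1 d hd
    · rw [B4_mem_Y] at hd
      obtain ⟨i, hi, rfl⟩ := hd
      rw [B4_sm_y e he u hl]
      exact h2 i hi


theorem B4_split {δ : Type*} [DecidableEq δ] (D Out Ex : Finset δ) (hD : D = Out ∪ Ex)
    (hdisj : Disjoint Out Ex) (e e' : δ → δ) (h1 : ∀ d ∈ Out, e' d ∈ Out)
    (h2 : ∀ d ∈ Ex, e' d ∈ Ex) (hee : ∀ d ∈ Out, e' d = e d) (P : Finset δ → Prop)
    [DecidablePred P] :
    (D.powerset.filter fun T => (∀ d ∈ T, e' d ∈ T) ∧ P T ∧ P (D \ T)).card =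
      ∑ F ∈ Out.powerset.filter (fun F => ∀ d ∈ F, e d ∈ F),
        (Ex.powerset.filter fun G => (∀ d ∈ G, e' d ∈ G) ∧ P (F ∪ G) ∧
          P ((Out \ F) ∪ (Ex \ G))).card := by
  subst hD
  rw [disjoint_left] at hdisj
  rw [← card_sigma]
  refine card_nbij' (fun T => ⟨T ∩ Out, T ∩ Ex⟩) (fun p => p.1 ∪ p.2) ?_ ?_ ?_ ?_
  · intro T hT
    simp only [mem_coe, mem_filter, mem_powerset, coe_sigma, Set.mem_sigma_iff] at hT ⊢
    obtain ⟨hT1, hT2, hT3, hT4⟩ := hT
    have e1 : T ∩ Out ∪ T ∩ Ex = T := by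
      rw [← inter_union_distrib_left]
      exact inter_eq_left.2 hT1
    have e2 : Out \ (T ∩ Out) ∪ Ex \ (T ∩ Ex) = (Out ∪ Ex) \ T := by
      ext d
      simp only [mem_union, mem_sdiff, mem_inter]
      tauto
    refine ⟨⟨inter_subset_right, ?_⟩, inter_subset_right, ?_, ?_, ?_⟩
    · intro d hd
      rw [mem_inter] at hd ⊢
      rw [← hee d hd.2]
      exact ⟨hT2 d hd.1, h1 d hd.2⟩
    · intro d hd
      rw [mem_inter] at hd ⊢
      exact ⟨hT2 d hd.1, h2 d hd.2⟩
    · rw [e1]; exact hT3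
    · rw [e2]; exact hT4
  · rintro ⟨F, G⟩ hp
    simp only [mem_coe, mem_filter, mem_powerset, coe_sigma, Set.mem_sigma_iff] at hp ⊢
    obtain ⟨⟨hF1, hF2⟩, hG1, hG2, hG3, hG4⟩ := hp
    have e2 : (Out ∪ Ex) \ (F ∪ G) = Out \ F ∪ Ex \ G := by
      ext d
      simp only [mem_union, mem_sdiff]
      constructor
      · rintro ⟨a | a, b⟩
        · left; exact ⟨a, fun h => b (Or.inl h)⟩
        · right; exact ⟨a, fun h => b (Or.inr h)⟩
      · rintro (⟨a, b⟩ | ⟨a, b⟩)
        · refine ⟨Or.inl a, ?_⟩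
          rintro (h | h)
          · exact b h
          · exact hdisj a (hG1 h)
        · refine ⟨Or.inr a, ?_⟩
          rintro (h | h)
          · exact hdisj (hF1 h) a
          · exact b h
    refine ⟨union_subset_union hF1 hG1, ?_, hG3, ?_⟩
    · intro d hd
      rw [mem_union] at hd ⊢
      rcases hd with hd | hd
      · left; rw [hee d (hF1 hd)]; exact hF2 d hd
      · right; exact hG2 d hd
    · rw [e2]; exact hG4
  · intro T hT
    simp only [mem_coe, mem_filter, mem_powerset] at hT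
    show T ∩ Out ∪ T ∩ Ex = T
    rw [← inter_union_distrib_left]
    exact inter_eq_left.2 hT.1
  · rintro ⟨F, G⟩ hp
    simp only [mem_coe, mem_filter, mem_powerset, coe_sigma, Set.mem_sigma_iff] at hp
    obtain ⟨⟨hF1, hF2⟩, hG1, hG2, hG3, hG4⟩ := hp
    have e1 : (F ∪ G) ∩ Out = F := by
      ext d
      simp only [mem_union, mem_inter]
      constructor
      · rintro ⟨a | a, b⟩
        · exact a
        · exact absurd (hG1 a) (hdisj b)
      · intro h; exact ⟨Or.inl h, hF1 h⟩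
    have e2 : (F ∪ G) ∩ Ex = G := by
      ext d
      simp only [mem_union, mem_inter]
      constructor
      · rintro ⟨a | a, b⟩
        · exact absurd b (hdisj (hF1 a))
        · exact a
      · intro h; exact ⟨Or.inr h, hG1 h⟩
    show (⟨(F ∪ G) ∩ Out, (F ∪ G) ∩ Ex⟩ : (_ : Finset δ) × Finset δ) = ⟨F, G⟩
    rw [e1, e2]

open Classical in
theorem B4_left (S : Finset V) (e : V × Fin 4 → V × Fin 4) (he : ∀ d, e (e d) = d) (u : V)
    (hu : u ∈ S) (hS : 2 ≤ S.card) (hl : ∀ i j, e (u, i) ≠ (u, j)) :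
    TP S e = ∑ F ∈ (DU (S.erase u) e).powerset.filter (fun F => ∀ d ∈ F, e d ∈ F),
      ((B4_I (S.erase u) e u).powerset.filter fun A =>
        (A ≠ ∅ ∧ F.card + 2 * A.card + 2 = 2 * S.card ∧
          B4_K (S.erase u) e F (fun i => (e (u, i)).1) A) ∧
        (B4_I (S.erase u) e u \ A ≠ ∅ ∧
          (DU (S.erase u) e \ F).card + 2 * (B4_I (S.erase u) e u \ A).card + 2 = 2 * S.card ∧
          B4_K (S.erase u) e (DU (S.erase u) e \ F) (fun i => (e (u, i)).1)
            (B4_I (S.erase u) e u \ A))).card := by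
  have hO : ∀ d ∈ DU (S.erase u) e, e d ∈ DU (S.erase u) e := by
    intro d hd
    rw [B4_mem_DU] at hd ⊢
    rw [he]
    exact ⟨hd.2, hd.1⟩
  have hX : ∀ A, ∀ d ∈ B4_X e u A, e d ∈ B4_X e u A := by
    intro A d hd
    rw [B4_mem_X] at hd ⊢
    obtain ⟨i, hi, rfl | rfl⟩ := hd
    · exact ⟨i, hi, Or.inr rfl⟩
    · exact ⟨i, hi, Or.inl (he _)⟩
  unfold TP
  have := B4_split (DU S e) (DU (S.erase u) e) (B4_X e u (B4_I (S.erase u) e u))
    (B4_DU S e he u hu hl) (B4_disj_X S e he u _) e e hO (hX _) (fun _ _ => rfl)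
    (fun T => Tr S e T)
  rw [this]
  refine sum_congr (by ext F; simp only [mem_filter]) fun F hF => ?_
  simp only [mem_filter, mem_powerset] at hF
  symm
  refine card_nbij' (fun A => B4_X e u A) (fun G => univ.filter fun i => (u, i) ∈ G) ?_ ?_ ?_ ?_
  · intro A hA
    simp only [mem_coe, mem_filter, mem_powerset] at hA ⊢
    obtain ⟨hA1, hA2, hA3⟩ := hA
    have e1 : B4_X e u (B4_I (S.erase u) e u) \ B4_X e u A =
        B4_X e u (B4_I (S.erase u) e u \ A) := by
      ext d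
      rw [mem_sdiff]
      constructor
      · rintro ⟨h1, h2⟩
        rw [B4_mem_X] at h1
        obtain ⟨i, hi, rfl | rfl⟩ := h1
        · rw [B4_x_mem_X e u hl] at h2 ⊢
          exact mem_sdiff.2 ⟨hi, h2⟩
        · rw [B4_y_mem_X e he u hl] at h2 ⊢
          exact mem_sdiff.2 ⟨hi, h2⟩
      · intro h
        rw [B4_mem_X] at h
        obtain ⟨i, hi, rfl | rfl⟩ := h
        · rw [B4_x_mem_X e u hl, B4_x_mem_X e u hl]
          exact mem_sdiff.1 hi
        · rw [B4_y_mem_X e he u hl, B4_y_mem_X e he u hl]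
          exact mem_sdiff.1 hi
    refine ⟨?_, hX A, ?_, ?_⟩
    · intro d hd
      rw [B4_mem_X] at hd ⊢
      obtain ⟨i, hi, h⟩ := hd
      exact ⟨i, hA1 hi, h⟩
    · exact (B4_Tr S e he u hu hS hl F hF.1 A hA1).2 hA2
    · rw [e1]
      exact (B4_Tr S e he u hu hS hl _ sdiff_subset _ sdiff_subset).2 hA3
  · intro G hG
    simp only [mem_coe, mem_filter, mem_powerset] at hG ⊢
    obtain ⟨hG1, hG2, hG3, hG4⟩ := hG
    have eG : G = B4_X e u (univ.filter fun i => (u, i) ∈ G) := by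
      ext d
      constructor
      · intro hd
        have := hG1 hd
        rw [B4_mem_X] at this
        obtain ⟨i, hi, rfl | rfl⟩ := this
        · rw [B4_x_mem_X e u hl]
          exact mem_filter.2 ⟨mem_univ _, hd⟩
        · rw [B4_y_mem_X e he u hl]
          refine mem_filter.2 ⟨mem_univ _, ?_⟩
          have := hG2 _ hd
          rwa [he] at this
      · intro hd
        rw [B4_mem_X] at hd
        obtain ⟨i, hi, rfl | rfl⟩ := hd
        · exact (mem_filter.1 hi).2
        · exact hG2 _ (mem_filter.1 hi).2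
    have hsub : (univ.filter fun i => (u, i) ∈ G) ⊆ B4_I (S.erase u) e u := by
      intro i hi
      have := hG1 (mem_filter.1 hi).2
      rwa [B4_x_mem_X e u hl] at this
    have e1 : B4_X e u (B4_I (S.erase u) e u) \ G =
        B4_X e u (B4_I (S.erase u) e u \ (univ.filter fun i => (u, i) ∈ G)) := by
      ext d
      rw [mem_sdiff]
      constructor
      · rintro ⟨h1, h2⟩
        rw [eG] at h2
        rw [B4_mem_X] at h1
        obtain ⟨i, hi, rfl | rfl⟩ := h1
        · rw [B4_x_mem_X e u hl] at h2 ⊢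
          exact mem_sdiff.2 ⟨hi, h2⟩
        · rw [B4_y_mem_X e he u hl] at h2 ⊢
          exact mem_sdiff.2 ⟨hi, h2⟩
      · intro h
        rw [B4_mem_X] at h
        obtain ⟨i, hi, rfl | rfl⟩ := h
        · refine ⟨(B4_x_mem_X e u hl _ _).2 (mem_sdiff.1 hi).1, ?_⟩
          rw [eG, B4_x_mem_X e u hl]
          exact (mem_sdiff.1 hi).2
        · refine ⟨(B4_y_mem_X e he u hl _ _).2 (mem_sdiff.1 hi).1, ?_⟩
          rw [eG, B4_y_mem_X e he u hl]
          exact (mem_sdiff.1 hi).2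
    refine ⟨hsub, ?_, ?_⟩
    · rw [eG] at hG3
      exact (B4_Tr S e he u hu hS hl F hF.1 _ hsub).1 hG3
    · rw [e1] at hG4
      exact (B4_Tr S e he u hu hS hl _ sdiff_subset _ sdiff_subset).1 hG4
  · intro A hA
    show (univ.filter fun i => (u, i) ∈ B4_X e u A) = A
    ext i
    rw [mem_filter, B4_x_mem_X e u hl]
    simp
  · intro G hG
    simp only [mem_coe, mem_filter, mem_powerset] at hG
    obtain ⟨hG1, hG2, hG3, hG4⟩ := hG
    show B4_X e u (univ.filter fun i => (u, i) ∈ G) = G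
    ext d
    constructor
    · intro hd
      rw [B4_mem_X] at hd
      obtain ⟨i, hi, rfl | rfl⟩ := hd
      · exact (mem_filter.1 hi).2
      · exact hG2 _ (mem_filter.1 hi).2
    · intro hd
      have := hG1 hd
      rw [B4_mem_X] at this
      obtain ⟨i, hi, rfl | rfl⟩ := this
      · rw [B4_x_mem_X e u hl]
        exact mem_filter.2 ⟨mem_univ _, hd⟩
      · rw [B4_y_mem_X e he u hl]
        refine mem_filter.2 ⟨mem_univ _, ?_⟩
        have := hG2 _ hd
        rwa [he] at this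

open Classical in
theorem B4_right (S : Finset V) (e : V × Fin 4 → V × Fin 4) (he : ∀ d, e (e d) = d) (u : V)
    (hu : u ∈ S) (hl : ∀ i j, e (u, i) ≠ (u, j)) (t : Fin 3) :
    TP (S.erase u) (sm e u t) =
      ∑ F ∈ (DU (S.erase u) e).powerset.filter (fun F => ∀ d ∈ F, e d ∈ F),
      ((B4_It (B4_I (S.erase u) e u) t).powerset.filter fun B =>
        (∀ i ∈ B, B4_pi t i ∈ B) ∧
        (F.card + B.card + 4 = 2 * S.card ∧
          B4_M (S.erase u) e F (fun i => (e (u, i)).1) t B) ∧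
        ((DU (S.erase u) e \ F).card + (B4_It (B4_I (S.erase u) e u) t \ B).card + 4 =
            2 * S.card ∧
          B4_M (S.erase u) e (DU (S.erase u) e \ F) (fun i => (e (u, i)).1) t
            (B4_It (B4_I (S.erase u) e u) t \ B))).card := by
  have hO : ∀ d ∈ DU (S.erase u) e, sm e u t d = e d := by
    intro d hd
    rw [B4_mem_DU] at hd
    exact B4_sm_out e u t d (ne_of_mem_erase hd.1) (ne_of_mem_erase hd.2)
  have hO' : ∀ d ∈ DU (S.erase u) e, sm e u t d ∈ DU (S.erase u) e := by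
    intro d hd
    rw [hO d hd]
    rw [B4_mem_DU] at hd ⊢
    rw [he]
    exact ⟨hd.2, hd.1⟩
  have hY : ∀ B : Finset (Fin 4), (∀ i ∈ B, B4_pi t i ∈ B) →
      ∀ d ∈ B4_Y e u B, sm e u t d ∈ B4_Y e u B := by
    intro B hB d hd
    rw [B4_mem_Y] at hd
    obtain ⟨i, hi, rfl⟩ := hd
    rw [B4_sm_y e he u hl, B4_y_mem_Y e he]
    exact hB i hi
  have hIt : ∀ i ∈ B4_It (B4_I (S.erase u) e u) t,
      B4_pi t i ∈ B4_It (B4_I (S.erase u) e u) t := by
    have := B4_It_inv (B4_I (S.erase u) e u) t ∅ (by simp)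
    simpa using this
  have hYs : ∀ A B : Finset (Fin 4), B4_Y e u A \ B4_Y e u B = B4_Y e u (A \ B) := by
    intro A B
    ext d
    rw [mem_sdiff]
    constructor
    · rintro ⟨h1, h2⟩
      rw [B4_mem_Y] at h1
      obtain ⟨i, hi, rfl⟩ := h1
      rw [B4_y_mem_Y e he] at h2 ⊢
      exact mem_sdiff.2 ⟨hi, h2⟩
    · intro h
      rw [B4_mem_Y] at h
      obtain ⟨i, hi, rfl⟩ := h
      rw [B4_y_mem_Y e he, B4_y_mem_Y e he]
      exact mem_sdiff.1 hi
  unfold TP
  have := B4_split (DU (S.erase u) (sm e u t)) (DU (S.erase u) e)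
    (B4_Y e u (B4_It (B4_I (S.erase u) e u) t))
    (B4_DUt S e he u hl t) (B4_disj_Y S e he u _) e (sm e u t) hO' (hY _ hIt) hO
    (fun T => Tr (S.erase u) (sm e u t) T)
  rw [this]
  refine sum_congr (by ext F; simp only [mem_filter]) fun F hF => ?_
  simp only [mem_filter, mem_powerset] at hF
  symm
  refine card_nbij' (fun A => B4_Y e u A) (fun G => univ.filter fun i => e (u, i) ∈ G)
    ?_ ?_ ?_ ?_
  · intro A hA
    simp only [mem_coe, mem_filter, mem_powerset] at hA ⊢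
    obtain ⟨hA1, hAi, hA2, hA3⟩ := hA
    refine ⟨?_, hY A hAi, ?_, ?_⟩
    · intro d hd
      rw [B4_mem_Y] at hd ⊢
      obtain ⟨i, hi, h⟩ := hd
      exact ⟨i, hA1 hi, h⟩
    · exact (B4_Trt S e he u hu hl t F hF.1 A).2 hA2
    · rw [hYs]
      exact (B4_Trt S e he u hu hl t _ sdiff_subset _).2 hA3
  · intro G hG
    simp only [mem_coe, mem_filter, mem_powerset] at hG ⊢
    obtain ⟨hG1, hG2, hG3, hG4⟩ := hG
    have eG : G = B4_Y e u (univ.filter fun i => e (u, i) ∈ G) := by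
      ext d
      constructor
      · intro hd
        have := hG1 hd
        rw [B4_mem_Y] at this
        obtain ⟨i, hi, rfl⟩ := this
        rw [B4_y_mem_Y e he]
        exact mem_filter.2 ⟨mem_univ _, hd⟩
      · intro hd
        rw [B4_mem_Y] at hd
        obtain ⟨i, hi, rfl⟩ := hd
        exact (mem_filter.1 hi).2
    have hsub : (univ.filter fun i => e (u, i) ∈ G) ⊆ B4_It (B4_I (S.erase u) e u) t := by
      intro i hi
      have := hG1 (mem_filter.1 hi).2
      rwa [B4_y_mem_Y e he] at this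
    refine ⟨hsub, ?_, ?_, ?_⟩
    · intro i hi
      have := hG2 _ hi.2
      rw [B4_sm_y e he u hl] at this
      exact ⟨mem_univ _, this⟩
    · rw [eG] at hG3
      exact (B4_Trt S e he u hu hl t F hF.1 _).1 hG3
    · rw [eG, hYs] at hG4
      exact (B4_Trt S e he u hu hl t _ sdiff_subset _).1 hG4
  · intro A hA
    show (univ.filter fun i => e (u, i) ∈ B4_Y e u A) = A
    ext i
    rw [mem_filter, B4_y_mem_Y e he]
    simp
  · intro G hG
    simp only [mem_coe, mem_filter, mem_powerset] at hG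
    obtain ⟨hG1, hG2, hG3, hG4⟩ := hG
    show B4_Y e u (univ.filter fun i => e (u, i) ∈ G) = G
    ext d
    constructor
    · intro hd
      rw [B4_mem_Y] at hd
      obtain ⟨i, hi, rfl⟩ := hd
      exact (mem_filter.1 hi).2
    · intro hd
      have := hG1 hd
      rw [B4_mem_Y] at this
      obtain ⟨i, hi, rfl⟩ := this
      rw [B4_y_mem_Y e he]
      exact mem_filter.2 ⟨mem_univ _, hd⟩

/-- The number of darts with both ends in `S`. -/
theorem B4_count (S : Finset V) (v : V) (e : V × Fin 4 → V × Fin 4)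
    (hA : Act (dts (insert v S)) e) : 4 * S.card ≤ (DU S e).card + 4 := by
  have he := hA.1
  have h1 : (dts S).card = 4 * S.card := by
    unfold dts
    rw [card_product, card_univ, Fintype.card_fin, mul_comm]
  have h2 : (dts S \ DU S e).card ≤ (({v} : Finset V) ×ˢ (univ : Finset (Fin 4))).card := by
    refine card_le_card_of_injOn e ?_ ?_
    · intro d hd
      rw [mem_coe, mem_sdiff, B4_mem_DU] at hd
      rw [mem_coe, mem_product, mem_singleton]
      refine ⟨?_, mem_univ _⟩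
      have hd1 : d.1 ∈ S := by
        have := hd.1
        unfold dts at this
        exact (mem_product.1 this).1
      have hd2 : (e d).1 ∉ S := fun h => hd.2 ⟨hd1, h⟩
      have hne : e d ≠ d := by
        rw [hA.2 d]
        unfold dts
        rw [mem_product]
        exact ⟨mem_insert_of_mem hd1, mem_univ _⟩
      have hne' : e (e d) ≠ e d := by
        rw [he]; exact hne.symm
      have := (hA.2 (e d)).1 hne'
      unfold dts at this
      rw [mem_product, mem_insert] at this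
      exact this.1.resolve_right hd2
    · intro a _ b _ h
      exact (inj_of he).1 h
  rw [card_product, card_singleton, card_univ, Fintype.card_fin] at h2
  have h3 : DU S e ⊆ dts S := filter_subset _ _
  have h4 := card_sdiff_add_card_eq_card h3
  omega

end graph

theorem B4 (hB0 : B0_stmt) (hB3 : B3_stmt) : B4_stmt := by
  classical
  intro V _ _ S v u e _ hu hS hA hl
  have he := hA.1
  have hc := B4_count S v e hA
  rw [B4_DU S e he u hu hl, card_union_of_disjoint (B4_disj_X S e he u _),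
    B4_card_X e he u hl] at hc
  rw [B4_left S e he u hu hS hl]
  simp_rw [B4_right S e he u hu hl]
  rw [sum_comm]
  refine sum_congr rfl fun F hF => ?_
  simp only [mem_filter, mem_powerset] at hF
  have hFF : ∀ G, G ⊆ DU (S.erase u) e → (∀ d ∈ G, e d ∈ G) →
      ∀ d ∈ G, e d ∈ G ∧ e d ≠ d ∧ d.1 ∈ S.erase u := by
    intro G hG hGi d hd
    have := hG hd
    rw [B4_mem_DU] at this
    refine ⟨hGi d hd, ?_, this.1⟩
    rw [hA.2 d]
    unfold dts
    rw [mem_product]
    exact ⟨mem_insert_of_mem (mem_of_mem_erase this.1), mem_univ _⟩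
  have hF' : ∀ d ∈ DU (S.erase u) e \ F, e d ∈ DU (S.erase u) e \ F := by
    intro d hd
    rw [mem_sdiff] at hd ⊢
    refine ⟨?_, ?_⟩
    · have := hd.1
      rw [B4_mem_DU] at this ⊢
      rw [he]
      exact ⟨this.2, this.1⟩
    · intro h
      have := hF.2 _ h
      rw [he] at this
      exact hd.2 this
  have hIu : B4_I (S.erase u) e u = univ → ∀ i, (e (u, i)).1 ∈ S.erase u := by
    intro h i
    have : i ∈ B4_I (S.erase u) e u := by rw [h]; exact mem_univ _
    unfold B4_I at this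
    exact (mem_filter.1 this).2
  have hSc : (S.erase u).card = S.card - 1 := card_erase_of_mem hu
  have hsum := card_sdiff_add_card_eq_card hF.1
  convert B4_core (B4_I (S.erase u) e u)
    (fun A => B4_K (S.erase u) e F (fun i => (e (u, i)).1) A)
    (fun A => B4_K (S.erase u) e (DU (S.erase u) e \ F) (fun i => (e (u, i)).1) A)
    (fun t B => B4_M (S.erase u) e F (fun i => (e (u, i)).1) t B)
    (fun t B => B4_M (S.erase u) e (DU (S.erase u) e \ F) (fun i => (e (u, i)).1) t B)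
    F.card (DU (S.erase u) e \ F).card S.card ?_ ?_ ?_ ?_ ?_ ?_ ?_ ?_ ?_ using 1
  · intro A h; exact B4_K1 _ _ _ _ A h
  · intro A h; exact B4_K1 _ _ _ _ A h
  · intro t; exact B4_M0 _ _ _ _ t
  · intro t; exact B4_M0 _ _ _ _ t
  · intro t A h hi; exact B4_M2 _ _ _ _ t A h hi
  · intro t A h hi; exact B4_M2 _ _ _ _ t A h hi
  · intro hI h8
    convert B4_star hB0 hB3 (S.erase u) e F (fun i => (e (u, i)).1) (hIu hI) he
      (hFF F hF.1 hF.2) (by omega)
  · intro hI h8
    convert B4_star hB0 hB3 (S.erase u) e (DU (S.erase u) e \ F) (fun i => (e (u, i)).1)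
      (hIu hI) he (hFF _ sdiff_subset hF') (by omega)
  · omega

end CT
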