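import Pool.Agent.helper56.CT.SpecA

namespace CT
open Finset

theorem D4_ex : ∀ i i1 : Fin 4, i ≠ i1 → ∃ i2 i3 : Fin 4, [i, i1, i2, i3].Nodup ∧
    ∀ k, k = i ∨ k = i1 ∨ k = i2 ∨ k = i3 := by decide

section
variable {V : Type} [DecidableEq V]

/-- The term with two joins. -/
def D4_W (x : ℤ) (L : List V) (e : V × Fin 4 → V × Fin 4) (a b c d : V × Fin 4) : ℤ :=
  x ^ (lp e a b + lp (join e a b) c d) * Z x L (join (join e a b) c d)

theorem D4_W_symm (x : ℤ) (L : List V) (e : V × Fin 4 → V × Fin 4) (he : ∀ d, e (e d) = d)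
    (a b c d : V × Fin 4) : D4_W x L e a b c d = D4_W x L e b a c d := by
  unfold D4_W
  rw [lp_symm e he a b, join_symm e he a b]

theorem D4_W_swap (x : ℤ) (L : List V) (e : V × Fin 4 → V × Fin 4) (he : ∀ d, e (e d) = d)
    (a b c d : V × Fin 4) (hnd : [a, b, c, d].Nodup) (hact : ∀ z ∈ [a, b, c, d], e z ≠ z) :
    D4_W x L e a b c d = D4_W x L e c d a b := by
  simp only [List.nodup_cons, List.mem_cons, List.not_mem_nil, or_false, not_or,
    List.nodup_nil, and_true, not_false_eq_true] at hnd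
  obtain ⟨⟨h1, h2, h3⟩, ⟨h4, h5⟩, h6⟩ := hnd
  have a1 := hact a (by simp)
  have a2 := hact b (by simp)
  have a3 := hact c (by simp)
  have a4 := hact d (by simp)
  unfold D4_W
  rw [lp_comm e he h1 h2 h3 h4 h5 h6 a1 a2 a3 a4, join_comm e he h1 h2 h3 h4 h5 h6 a1 a2 a3 a4]

theorem D4_chain (x : ℤ) (L : List V) (e : V × Fin 4 → V × Fin 4) (he : ∀ d, e (e d) = d)
    {p q y z a b : V × Fin 4} (hpq : e p = q) (hnd : [p, q, y, z].Nodup)
    (hy : e y ≠ y) (hz : e z ≠ z) :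
    T3 x L e p y q z a b = D4_W x L (join e p q) y z a b := by
  simp only [List.nodup_cons, List.mem_cons, List.not_mem_nil, or_false, not_or,
    List.nodup_nil, and_true, not_false_eq_true] at hnd
  obtain ⟨⟨h1, h2, h3⟩, ⟨h4, h5⟩, h6⟩ := hnd
  obtain ⟨g1, g2, g3⟩ := join_chain e he hpq h1 h2 h3 h4 h5 h6 hy hz
  unfold T3 D4_W lp3 join3
  rw [g1, g2, g3, zero_add]

theorem D4_six (hD0 : D0_stmt) (x : ℤ) (L : List V) (A : Finset (V × Fin 4))
    (e : V × Fin 4 → V × Fin 4) (hA : Act A e)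
    (p q y2 y3 z2 z3 : V × Fin 4) (hnd : [p, q, y2, y3, z2, z3].Nodup)
    (hact : ∀ z ∈ [p, q, y2, y3, z2, z3], z ∈ A) (hpq : e p = q) :
    T3 x L e p q y2 y3 z2 z3 + T3 x L e p z2 y2 y3 q z3 + T3 x L e p z3 y2 y3 q z2 +
      (T3 x L e y2 q p y3 z2 z3 + T3 x L e y2 z2 p y3 q z3 + T3 x L e y2 z3 p y3 q z2) +
      (T3 x L e y3 q p y2 z2 z3 + T3 x L e y3 z2 p y2 q z3 + T3 x L e y3 z3 p y2 q z2) =
    T3 x L e p q y2 y3 z2 z3 + 4 * D4_W x L (join e p q) z2 z3 y2 y3 +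
      2 * D4_W x L (join e p q) y3 z3 y2 z2 + 2 * D4_W x L (join e p q) y3 z2 y2 z3 := by
  have he := hA.1
  simp only [List.mem_cons, List.not_mem_nil, or_false, forall_eq_or_imp, forall_eq] at hact
  obtain ⟨mp, mq, my2, my3, mz2, mz3⟩ := hact
  have ap := (hA.2 p).2 mp
  have aq := (hA.2 q).2 mq
  have ay2 := (hA.2 y2).2 my2
  have ay3 := (hA.2 y3).2 my3
  have az2 := (hA.2 z2).2 mz2
  have az3 := (hA.2 z3).2 mz3
  have hnd' := hnd
  simp only [List.nodup_cons, List.mem_cons, List.not_mem_nil, or_false, not_or,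
    List.nodup_nil, and_true, not_false_eq_true] at hnd'
  obtain ⟨⟨n1, n2, n3, n4, n5⟩, ⟨n6, n7, n8, n9⟩, ⟨n10, n11, n12⟩, ⟨n13, n14⟩, n15⟩ := hnd'
  have m1 := Ne.symm n1
  have m2 := Ne.symm n2
  have m3 := Ne.symm n3
  have m4 := Ne.symm n4
  have m5 := Ne.symm n5
  have m6 := Ne.symm n6
  have m7 := Ne.symm n7
  have m8 := Ne.symm n8
  have m9 := Ne.symm n9
  have m10 := Ne.symm n10
  have m11 := Ne.symm n11
  have m12 := Ne.symm n12
  have m13 := Ne.symm n13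
  have m14 := Ne.symm n14
  have m15 := Ne.symm n15
  have hA1 := join_act hA mp mq n1
  set e1 := join e p q with he1
  have he1' := hA1.1
  have by2 : e1 y2 ≠ y2 := (hA1.2 y2).2 (by simp [*])
  have by3 : e1 y3 ≠ y3 := (hA1.2 y3).2 (by simp [*])
  have bz2 : e1 z2 ≠ z2 := (hA1.2 z2).2 (by simp [*])
  have bz3 : e1 z3 ≠ z3 := (hA1.2 z3).2 (by simp [*])
  clear_value e1
  have N : ∀ l : List (V × Fin 4), l.Perm [p, q, y2, y3, z2, z3] → l.Nodup :=
    fun l hl => hl.nodup_iff.2 hnd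
  have S := fun (a b c d f g : V × Fin 4) (h : [a, b, c, d, f, g].Nodup)
    (h' : ∀ z ∈ [a, b, c, d, f, g], e z ≠ z) => hD0 V x L e a b c d f g he h h'
  -- T2
  have t2 : T3 x L e p z2 y2 y3 q z3 = D4_W x L e1 z2 z3 y2 y3 := by
    rw [(S p z2 y2 y3 q z3 (by simp [*]) (by simp [*])).2.1,
      D4_chain x L e he hpq (by simp [*]) az2 az3, ← he1]
  have t3 : T3 x L e p z3 y2 y3 q z2 = D4_W x L e1 z2 z3 y2 y3 := by
    rw [(S p z3 y2 y3 q z2 (by simp [*]) (by simp [*])).2.1,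
      D4_chain x L e he hpq (by simp [*]) az3 az2, ← he1, D4_W_symm x L e1 he1']
  have t7 : T3 x L e y3 q p y2 z2 z3 = D4_W x L e1 z2 z3 y2 y3 := by
    rw [(S y3 q p y2 z2 z3 (by simp [*]) (by simp [*])).1,
      (S p y2 y3 q z2 z3 (by simp [*]) (by simp [*])).2.2.2.1,
      D4_chain x L e he hpq (by simp [*]) ay2 ay3, ← he1,
      D4_W_swap x L e1 he1' y2 y3 z2 z3 (by simp [*]) (by simp [*, -he1])]
  have t4 : T3 x L e y2 q p y3 z2 z3 = D4_W x L e1 z2 z3 y2 y3 := by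
    rw [(S y2 q p y3 z2 z3 (by simp [*]) (by simp [*])).1,
      (S p y3 y2 q z2 z3 (by simp [*]) (by simp [*])).2.2.2.1,
      D4_chain x L e he hpq (by simp [*]) ay3 ay2, ← he1, D4_W_symm x L e1 he1',
      D4_W_swap x L e1 he1' y2 y3 z2 z3 (by simp [*]) (by simp [*, -he1])]
  have t5 : T3 x L e y2 z2 p y3 q z3 = D4_W x L e1 y3 z3 y2 z2 := by
    rw [(S y2 z2 p y3 q z3 (by simp [*]) (by simp [*])).1,
      (S p y3 y2 z2 q z3 (by simp [*]) (by simp [*])).2.1,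
      D4_chain x L e he hpq (by simp [*]) ay3 az3, ← he1]
  have t9 : T3 x L e y3 z3 p y2 q z2 = D4_W x L e1 y3 z3 y2 z2 := by
    rw [(S y3 z3 p y2 q z2 (by simp [*]) (by simp [*])).1,
      (S p y2 y3 z3 q z2 (by simp [*]) (by simp [*])).2.1,
      D4_chain x L e he hpq (by simp [*]) ay2 az2, ← he1,
      D4_W_swap x L e1 he1' y2 z2 y3 z3 (by simp [*]) (by simp [*, -he1])]
  have t6 : T3 x L e y2 z3 p y3 q z2 = D4_W x L e1 y3 z2 y2 z3 := by
    rw [(S y2 z3 p y3 q z2 (by simp [*]) (by simp [*])).1,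
      (S p y3 y2 z3 q z2 (by simp [*]) (by simp [*])).2.1,
      D4_chain x L e he hpq (by simp [*]) ay3 az2, ← he1]
  have t8 : T3 x L e y3 z2 p y2 q z3 = D4_W x L e1 y3 z2 y2 z3 := by
    rw [(S y3 z2 p y2 q z3 (by simp [*]) (by simp [*])).1,
      (S p y2 y3 z2 q z3 (by simp [*]) (by simp [*])).2.1,
      D4_chain x L e he hpq (by simp [*]) ay2 az3, ← he1,
      D4_W_swap x L e1 he1' y2 z3 y3 z2 (by simp [*]) (by simp [*, -he1])]
  rw [t2, t3, t4, t5, t6, t7, t8, t9]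
  ring

end

theorem D4 (hD0 : D0_stmt) (hD2 : D2_stmt) (hJC1 : JC1_stmt) : D4_stmt := by
  intro V _ _ L e u w i i1 j j1 hnd hi hj hL hA he1 he2
  obtain ⟨i2, i3, hin, hia⟩ := D4_ex i i1 hi
  obtain ⟨j2, j3, hjn, hja⟩ := D4_ex j j1 hj
  have huw : u ≠ w := by
    intro h; subst h; simp at hnd
  have huL : u ∉ L := by
    intro h; simp [h] at hnd
  have hwL : w ∉ L := by
    intro h; simp [h] at hnd
  have hLn : L.Nodup := by
    simp only [List.nodup_cons] at hnd; exact hnd.2.2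
  rw [hD2 V (-4) L e u w i i1 i2 i3 j j1 j2 j3 hnd hin hjn hA he1]
  have hmu : ∀ k, (u, k) ∈ dts (u :: w :: L).toFinset := by
    intro k; simp [dts]
  have hmw : ∀ k, (w, k) ∈ dts (u :: w :: L).toFinset := by
    intro k; simp [dts]
  have hA0 := join_act hA (hmu i) (hmw j) (by simp [huw])
  have he := hA.1
  have hin' := hin
  have hjn' := hjn
  simp only [List.nodup_cons, List.mem_cons, List.not_mem_nil, or_false, not_or,
    List.nodup_nil, and_true, not_false_eq_true] at hin' hjn'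
  obtain ⟨⟨n1, n2, n3⟩, ⟨n4, n5⟩, n6⟩ := hin'
  obtain ⟨⟨k1, k2, k3⟩, ⟨k4, k5⟩, k6⟩ := hjn'
  have hwu := huw.symm
  have n1' := Ne.symm n1
  have n2' := Ne.symm n2
  have n3' := Ne.symm n3
  have n4' := Ne.symm n4
  have n5' := Ne.symm n5
  have n6' := Ne.symm n6
  have k1' := Ne.symm k1
  have k2' := Ne.symm k2
  have k3' := Ne.symm k3
  have k4' := Ne.symm k4
  have k5' := Ne.symm k5
  have k6' := Ne.symm k6
  have hpq : join e (u, i) (w, j) (u, i1) = (w, j1) := by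
    unfold join
    simp [*]
  rw [D4_six hD0 (-4) L _ (join e (u, i) (w, j)) hA0 (u, i1) (w, j1) (u, i2) (u, i3) (w, j2)
    (w, j3) (by simp [*]) (by simp [dts, *]) hpq]
  have hA1 := join_act hA0 (x := (u, i1)) (y := (w, j1)) (by simp [dts, *]) (by simp [dts, *])
    (by simp [*])
  -- divisibility by 16 of the states
  have key : ∀ a b c d : V × Fin 4, [a, b, c, d].Perm [(u, i2), (u, i3), (w, j2), (w, j3)] →
      16 ∣ Z (-4) L (join (join (join (join e (u, i) (w, j)) (u, i1) (w, j1)) a b) c d) := by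
    intro a b c d hp
    have hnd4 : [a, b, c, d].Nodup := hp.nodup_iff.2 (by simp [*])
    have hm : ∀ z, z ∈ [a, b, c, d] ↔ z ∈ [(u, i2), (u, i3), (w, j2), (w, j3)] :=
      fun z => hp.mem_iff
    have hmem : ∀ z ∈ [a, b, c, d], z ∈ (((((dts (u :: w :: L).toFinset).erase
        (u, i)).erase (w, j)).erase (u, i1)).erase (w, j1)) := by
      intro z hz
      rw [hm] at hz
      simp only [List.mem_cons, List.not_mem_nil, or_false] at hz
      rcases hz with rfl | rfl | rfl | rfl <;> simp [dts, *]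
    simp only [List.nodup_cons, List.mem_cons, List.not_mem_nil, or_false, not_or,
      List.nodup_nil, and_true, not_false_eq_true] at hnd4
    obtain ⟨⟨r1, r2, r3⟩, ⟨r4, r5⟩, r6⟩ := hnd4
    have hB1 := join_act hA1 (hmem a (by simp)) (hmem b (by simp)) r1
    have hB2 := join_act hB1 (x := c) (y := d)
      (mem_erase.2 ⟨Ne.symm r4, mem_erase.2 ⟨Ne.symm r2, hmem c (by simp)⟩⟩)
      (mem_erase.2 ⟨Ne.symm r5, mem_erase.2 ⟨Ne.symm r3, hmem d (by simp)⟩⟩) r6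
    refine hJC1 V L _ hLn hL ?_
    convert hB2 using 1
    ext ⟨v, k⟩
    have hmv : (v, k) ∈ [a, b, c, d] ↔ _ := hm (v, k)
    simp only [List.mem_cons, List.not_mem_nil, or_false, Prod.mk.injEq] at hmv
    have hL' : (v, k) ∈ dts L.toFinset ↔ v ∈ L := by simp [dts]
    have hL'' : (v, k) ∈ dts (u :: w :: L).toFinset ↔ v = u ∨ v = w ∨ v ∈ L := by simp [dts]
    simp only [mem_erase, hL', hL'', ne_eq, Prod.mk.injEq]
    have h5 : ((v, k) = a ∨ (v, k) = b ∨ (v, k) = c ∨ (v, k) = d) ↔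
      (v = u ∧ k = i2) ∨ (v = u ∧ k = i3) ∨ (v = w ∧ k = j2) ∨ (v = w ∧ k = j3) := by
      rw [← hmv]
    constructor
    · intro hv
      have hvu : v ≠ u := fun h => huL (h ▸ hv)
      have hvw : v ≠ w := fun h => hwL (h ▸ hv)
      have : ¬ ((v, k) = a ∨ (v, k) = b ∨ (v, k) = c ∨ (v, k) = d) := by
        rw [h5]; simp [hvu, hvw]
      push Not at this
      refine ⟨this.2.2.2, this.2.2.1, this.2.1, this.1, ?_, ?_, ?_, ?_, Or.inr (Or.inr hv)⟩ <;>
        simp [hvu, hvw]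
    · rintro ⟨c1, c2, c3, c4, c5, c6, c7, c8, hv⟩
      have h6 : ¬ ((v = u ∧ k = i2) ∨ (v = u ∧ k = i3) ∨ (v = w ∧ k = j2) ∨ (v = w ∧ k = j3)) := by
        rw [← h5]
        push Not
        exact ⟨c4, c3, c2, c1⟩
      rcases hv with rfl | rfl | hv
      · exfalso
        rcases hia k with h | h | h | h
        · exact c8 ⟨rfl, h⟩
        · exact c6 ⟨rfl, h⟩
        · exact h6 (Or.inl ⟨rfl, h⟩)
        · exact h6 (Or.inr (Or.inl ⟨rfl, h⟩))
      · exfalso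
        rcases hja k with h | h | h | h
        · exact c7 ⟨rfl, h⟩
        · exact c5 ⟨rfl, h⟩
        · exact h6 (Or.inr (Or.inr (Or.inl ⟨rfl, h⟩)))
        · exact h6 (Or.inr (Or.inr (Or.inr ⟨rfl, h⟩)))
      · exact hv
  have P1 : [(w, j2), (w, j3), (u, i2), (u, i3)].Perm [(u, i2), (u, i3), (w, j2), (w, j3)] :=
    List.perm_append_comm (l₁ := [(w, j2), (w, j3)]) (l₂ := [(u, i2), (u, i3)])
  have P2 : [(u, i3), (w, j3), (u, i2), (w, j2)].Perm [(u, i2), (u, i3), (w, j2), (w, j3)] := by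
    refine (List.perm_append_comm (l₁ := [(u, i3), (w, j3)]) (l₂ := [(u, i2), (w, j2)])).trans ?_
    refine List.Perm.cons _ ?_
    exact List.Perm.swap _ _ _
  have P3 : [(u, i3), (w, j2), (u, i2), (w, j3)].Perm [(u, i2), (u, i3), (w, j2), (w, j3)] := by
    refine (List.Perm.cons _ (List.Perm.swap _ _ _)).trans ?_
    exact List.Perm.swap _ _ _
  have d1 : (32 : ℤ) ∣ T3 (-4) L (join e (u, i) (w, j)) (u, i1) (w, j1) (u, i2) (u, i3) (w, j2)
      (w, j3) := by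
    have h16 := key (u, i2) (u, i3) (w, j2) (w, j3) (List.Perm.refl _)
    unfold T3 join3 lp3
    have hlp : lp (join e (u, i) (w, j)) (u, i1) (w, j1) = 1 := by
      unfold lp; rw [hpq]; simp
    obtain ⟨m, hm⟩ := h16
    have aux : ∀ s t : ℕ, (32 : ℤ) ∣ (-4) ^ (1 + s + t) * (16 * m) := by
      intro s t
      refine ⟨-2 * (-4) ^ (s + t) * m, ?_⟩
      rw [show 1 + s + t = (s + t) + 1 by ring, pow_succ]
      ring
    rw [hlp, hm]
    exact aux _ _
  have d2 : ∀ a b c d : V × Fin 4, [a, b, c, d].Perm [(u, i2), (u, i3), (w, j2), (w, j3)] →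
      16 ∣ D4_W (-4) L (join (join e (u, i) (w, j)) (u, i1) (w, j1)) a b c d := by
    intro a b c d hp
    unfold D4_W
    exact (key a b c d hp).mul_left _
  obtain ⟨r1, hr1⟩ := d1
  obtain ⟨r2, hr2⟩ := d2 _ _ _ _ P1
  obtain ⟨r3, hr3⟩ := d2 _ _ _ _ P2
  obtain ⟨r4, hr4⟩ := d2 _ _ _ _ P3
  rw [hr1, hr2, hr3, hr4]
  exact ⟨r1 + 2 * r2 + r3 + r4, by ring⟩

end CT
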